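import Pool.Agent.Y516.NW.Stm

/-! Volume of a thin cylinder around a line. -/

set_option autoImplicit false

open MeasureTheory

namespace Pool.Agent.Y407.NW

open Pool.Agent.Y516.NW

/-- Volume of a thin cylinder around a line. -/
theorem cyl : Pool.Agent.Y516.NW.CylStm := by
  intro R hR
  obtain ⟨β, hβ⟩ : ∃ β, β = volume (Metric.ball (0 : E3) 1) := ⟨_, rfl⟩
  have hβt : β ≠ ⊤ := by rw [hβ]; exact measure_ball_lt_top.ne
  have hβr : β = ENNReal.ofReal β.toReal := (ENNReal.ofReal_toReal hβt).symm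
  refine ⟨40 * R * β.toReal, by positivity, fun X hX t ht => ?_⟩
  have hX0 : 0 < ‖X‖ := norm_pos_iff.2 hX
  have hfr : Module.finrank ℝ E3 = 3 := finrank_euclideanSpace_fin
  rcases ht.eq_or_lt with h0 | h0
  · -- the set is empty
    have h1 : {v : E3 | ‖v‖ ≤ R ∧ gr X v < t * ‖X‖ ^ 2} = ∅ := by
      ext v
      simp only [Set.mem_ofPred_eq, Set.mem_empty_iff_false, iff_false, not_and, not_lt]
      intro _
      rw [← h0, zero_mul]
      unfold gr
      have h2 := abs_real_inner_le_norm X v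
      have h3 : (inner ℝ X v) ^ 2 ≤ (‖X‖ * ‖v‖) ^ 2 := by
        rw [← sq_abs]
        exact pow_le_pow_left₀ (abs_nonneg _) h2 2
      have h4 : (‖X‖ * ‖v‖) ^ 2 = ‖X‖ ^ 2 * ‖v‖ ^ 2 := by ring
      linarith
    rw [h1, measure_empty]
    exact zero_le
  obtain ⟨s, hs, hst⟩ : ∃ s : ℝ, 0 < s ∧ s ^ 2 = t := ⟨Real.sqrt t, Real.sqrt_pos.2 h0,
    Real.sq_sqrt h0.le⟩
  rcases lt_or_ge R s with hRs | hsR
  · have h1 : {v : E3 | ‖v‖ ≤ R ∧ gr X v < t * ‖X‖ ^ 2} ⊆ Metric.closedBall 0 R := by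
      intro v hv
      rw [Metric.mem_closedBall, dist_zero_right]
      exact hv.1
    refine (measure_mono h1).trans ?_
    rw [Measure.addHaar_closedBall _ _ hR.le, hfr, ← hβ, hβr, ← ENNReal.ofReal_mul (by positivity)]
    apply ENNReal.ofReal_le_ofReal
    rw [ENNReal.toReal_ofReal ENNReal.toReal_nonneg]
    have h2 : R ^ 3 ≤ 40 * R * t := by
      rw [← hst]
      have h3 : R ^ 2 ≤ s ^ 2 := by nlinarith
      nlinarith [mul_le_mul_of_nonneg_left h3 hR.le]
    have h4 : 0 ≤ β.toReal := ENNReal.toReal_nonneg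
    nlinarith [mul_le_mul_of_nonneg_right h2 h4]
  · -- covering by balls
    set n : ℕ := ⌈R / s⌉₊ with hn
    have hn1 : R / s ≤ n := Nat.le_ceil _
    have hn2 : (n : ℝ) < R / s + 1 := Nat.ceil_lt_add_one (by positivity)
    have hRs1 : 1 ≤ R / s := by rw [le_div_iff₀ hs]; linarith
    have hcov : {v : E3 | ‖v‖ ≤ R ∧ gr X v < t * ‖X‖ ^ 2} ⊆
        ⋃ k ∈ Finset.Icc (-(n : ℤ)) n, Metric.ball (((k : ℝ) * s / ‖X‖) • X) (2 * s) := by
      rintro v ⟨hv1, hv2⟩
      obtain ⟨a, ha⟩ : ∃ a : ℝ, a = inner ℝ X v / ‖X‖ ^ 2 := ⟨_, rfl⟩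
      have haX : a * ‖X‖ ^ 2 = inner ℝ X v := by rw [ha]; field_simp
      have hw : ‖v - a • X‖ ^ 2 * ‖X‖ ^ 2 = gr X v := by
        rw [norm_sub_sq_real, norm_smul, inner_smul_right, real_inner_comm, Real.norm_eq_abs,
          mul_pow, sq_abs, ← haX]
        unfold gr
        rw [← haX]
        ring
      have hws : ‖v - a • X‖ < s := by
        have h1 : ‖v - a • X‖ ^ 2 * ‖X‖ ^ 2 < s ^ 2 * ‖X‖ ^ 2 := by rw [hw, hst]; exact hv2
        have h2 := lt_of_mul_lt_mul_right h1 (by positivity)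
        exact lt_of_pow_lt_pow_left₀ 2 hs.le h2
      have hc : |a * ‖X‖| ≤ R := by
        have h2 := abs_real_inner_le_norm X v
        rw [← haX, abs_mul, abs_of_nonneg (by positivity : 0 ≤ ‖X‖ ^ 2)] at h2
        rw [abs_mul, abs_of_pos hX0]
        have h3 : (|a| * ‖X‖) * ‖X‖ ≤ ‖v‖ * ‖X‖ := by nlinarith
        exact (le_of_mul_le_mul_right h3 hX0).trans hv1
      obtain ⟨k, hk⟩ : ∃ k : ℤ, k = ⌊a * ‖X‖ / s⌋ := ⟨_, rfl⟩
      have hk1 : (k : ℝ) * s ≤ a * ‖X‖ := by
        have := Int.floor_le (a * ‖X‖ / s)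
        rw [← hk, le_div_iff₀ hs] at this
        exact this
      have hk2 : a * ‖X‖ < ((k : ℝ) + 1) * s := by
        have := Int.lt_floor_add_one (a * ‖X‖ / s)
        rw [← hk, div_lt_iff₀ hs] at this
        exact this
      rw [Set.mem_iUnion₂]
      refine ⟨k, ?_, ?_⟩
      · rw [Finset.mem_Icc]
        rw [abs_le] at hc
        constructor
        · rw [hk, Int.le_floor]
          push_cast
          have h3 : -(R / s) ≤ a * ‖X‖ / s := by
            rw [← neg_div]; exact div_le_div_of_nonneg_right hc.1 hs.le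
          linarith
        · have h3 : a * ‖X‖ / s ≤ R / s := div_le_div_of_nonneg_right hc.2 hs.le
          have h4 : (k : ℝ) ≤ n := by
            rw [hk]
            exact (Int.floor_le _).trans (h3.trans hn1)
          exact_mod_cast h4
      · rw [Metric.mem_ball, dist_eq_norm]
        have h5 : v - ((k : ℝ) * s / ‖X‖) • X = (v - a • X) + (a - (k : ℝ) * s / ‖X‖) • X := by
          rw [sub_smul]; abel
        rw [h5]
        refine (norm_add_le _ _).trans_lt ?_
        have h6 : ‖(a - (k : ℝ) * s / ‖X‖) • X‖ ≤ s := by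
          rw [norm_smul, Real.norm_eq_abs]
          have h7 : |a - (k : ℝ) * s / ‖X‖| * ‖X‖ = |a * ‖X‖ - (k : ℝ) * s| := by
            rw [← abs_of_pos hX0, ← abs_mul, abs_of_pos hX0]
            congr 1
            field_simp
          rw [h7, abs_le]
          constructor <;> linarith
        linarith
    refine (measure_mono hcov).trans ((measure_biUnion_finset_le _ _).trans ?_)
    have h1 : ∀ k ∈ Finset.Icc (-(n : ℤ)) n,
        volume (Metric.ball (((k : ℝ) * s / ‖X‖) • X) (2 * s)) =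
        ENNReal.ofReal ((2 * s) ^ 3 * β.toReal) := by
      intro k _
      rw [Measure.addHaar_ball _ _ (by positivity), hfr, ← hβ, hβr,
        ← ENNReal.ofReal_mul (by positivity), ENNReal.toReal_ofReal ENNReal.toReal_nonneg]
    rw [Finset.sum_congr rfl h1, Finset.sum_const, Int.card_Icc, nsmul_eq_mul]
    have h2 : ((n : ℤ) + 1 - -(n : ℤ)).toNat = 2 * n + 1 := by omega
    rw [h2]
    rw [← ENNReal.ofReal_natCast, ← ENNReal.ofReal_mul (by positivity)]
    apply ENNReal.ofReal_le_ofReal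
    push_cast
    have h3 : (2 * (n : ℝ) + 1) * s ≤ 5 * R := by
      have h4 : (2 * (n : ℝ) + 1) ≤ 5 * (R / s) := by linarith
      calc (2 * (n : ℝ) + 1) * s ≤ 5 * (R / s) * s := mul_le_mul_of_nonneg_right h4 hs.le
        _ = 5 * R := by field_simp
    have h5 : 0 ≤ β.toReal := ENNReal.toReal_nonneg
    have h6 : (2 * (n : ℝ) + 1) * ((2 * s) ^ 3 * β.toReal) =
        ((2 * (n : ℝ) + 1) * s) * (8 * s ^ 2 * β.toReal) := by ring
    rw [h6, ← hst]
    have h7 := mul_le_mul_of_nonneg_right h3 (by positivity : 0 ≤ 8 * s ^ 2 * β.toReal)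
    linarith

end Pool.Agent.Y407.NW
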