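import Pool.Agent.Y516.NW.Stm

/-! Image of Lebesgue measure on a ball under a surjective linear map. -/

set_option autoImplicit false

open MeasureTheory

namespace Pool.Agent.Y407.NW

open Pool.Agent.Y516.NW

/-- Image of Lebesgue measure on a ball under a surjective linear map. -/
theorem push : Pool.Agent.Y516.NW.PushStm := by
  intro n V hV R
  obtain ⟨g0, hg0⟩ := LinearMap.exists_rightInverse_of_surjective V (LinearMap.range_eq_top.2 hV)
  obtain ⟨g, hg⟩ : ∃ g : E3 →L[ℝ] (Fin n → E3), ∀ y, V (g y) = y :=
    ⟨LinearMap.toContinuousLinearMap g0, fun y => by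
      have := LinearMap.congr_fun hg0 y
      simpa using this⟩
  have hVc : Continuous V := LinearMap.continuous_of_finiteDimensional V
  set B : Set E3 := Metric.closedBall 0 1 with hB
  have hB0 : volume B ≠ 0 := (Metric.measure_closedBall_pos volume 0 one_pos).ne'
  have hBt : volume B ≠ ⊤ := (isCompact_closedBall 0 1).measure_ne_top
  set R' : ℝ := R + ‖g‖ with hR'
  have hRt : volume (Metric.closedBall (0 : Fin n → E3) R') ≠ ⊤ :=
    (isCompact_closedBall 0 R').measure_ne_top
  refine ⟨(volume (Metric.closedBall (0 : Fin n → E3) R') / volume B).toReal,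
    ENNReal.toReal_nonneg, fun A0 => ?_⟩
  rw [ENNReal.ofReal_toReal (ENNReal.div_ne_top hRt hB0)]
  have key : ∀ A : Set E3, MeasurableSet A → volume B * volume {P : Fin n → E3 | ‖P‖ ≤ R ∧ V P ∈ A} ≤
      volume (Metric.closedBall (0 : Fin n → E3) R') * volume A := by
    intro A hA
    have h1 : ∀ y ∈ B, volume {P : Fin n → E3 | ‖P‖ ≤ R ∧ V P ∈ A} ≤
        ∫⁻ P in Metric.closedBall (0 : Fin n → E3) R', A.indicator (fun _ => (1 : ENNReal)) (V P + y) := by
      intro y hy
      have hy1 : ‖g y‖ ≤ ‖g‖ := by
        have h2 := g.le_opNorm y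
        have h3 : ‖y‖ ≤ 1 := by simpa [hB] using hy
        have h4 : ‖g‖ * ‖y‖ ≤ ‖g‖ * 1 := mul_le_mul_of_nonneg_left h3 (norm_nonneg _)
        linarith
      rw [← measure_preimage_add_right volume (g y)]
      have hm : MeasurableSet {P : Fin n → E3 | V P + y ∈ A} :=
        (hVc.add continuous_const).measurable hA
      have h5 : ∫⁻ P in Metric.closedBall (0 : Fin n → E3) R',
          A.indicator (fun _ => (1 : ENNReal)) (V P + y) =
          volume ({P : Fin n → E3 | V P + y ∈ A} ∩ Metric.closedBall (0 : Fin n → E3) R') := by
        have h6 : (fun P : Fin n → E3 => A.indicator (fun _ => (1 : ENNReal)) (V P + y)) =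
            {P : Fin n → E3 | V P + y ∈ A}.indicator (fun _ => 1) := by
          funext P
          by_cases h : V P + y ∈ A
          · rw [Set.indicator_of_mem h, Set.indicator_of_mem (by exact h)]
          · rw [Set.indicator_of_notMem h, Set.indicator_of_notMem (by exact h)]
        rw [h6, lintegral_indicator hm, lintegral_one, Measure.restrict_apply_univ,
          Measure.restrict_apply hm]
      rw [h5]
      apply measure_mono
      intro P hP
      obtain ⟨h7, h8⟩ : ‖P + g y‖ ≤ R ∧ V (P + g y) ∈ A := hP
      refine ⟨?_, ?_⟩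
      · change V P + y ∈ A
        rw [map_add, hg] at h8
        exact h8
      · rw [Metric.mem_closedBall, dist_zero_right, hR']
        have h9 := norm_sub_le (P + g y) (g y)
        rw [add_sub_cancel_right] at h9
        linarith
    have hmeas : Measurable (fun z : E3 × (Fin n → E3) =>
        A.indicator (fun _ => (1 : ENNReal)) (V z.2 + z.1)) := by
      have h2 : Measurable (fun z : E3 × (Fin n → E3) => V z.2 + z.1) :=
        ((hVc.comp continuous_snd).add continuous_fst).measurable
      exact (measurable_const.indicator hA).comp h2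
    calc volume B * volume {P : Fin n → E3 | ‖P‖ ≤ R ∧ V P ∈ A}
        = ∫⁻ _y in B, volume {P : Fin n → E3 | ‖P‖ ≤ R ∧ V P ∈ A} := by
          rw [setLIntegral_const, mul_comm]
      _ ≤ ∫⁻ y in B, ∫⁻ P in Metric.closedBall (0 : Fin n → E3) R',
            A.indicator (fun _ => (1 : ENNReal)) (V P + y) :=
          setLIntegral_mono' Metric.isClosed_closedBall.measurableSet h1
      _ = ∫⁻ P in Metric.closedBall (0 : Fin n → E3) R', ∫⁻ y in B,
            A.indicator (fun _ => (1 : ENNReal)) (V P + y) :=
          lintegral_lintegral_swap hmeas.aemeasurable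
      _ ≤ ∫⁻ _P in Metric.closedBall (0 : Fin n → E3) R', volume A := by
          apply lintegral_mono
          intro P
          refine (setLIntegral_le_lintegral _ _).trans ?_
          have hm : MeasurableSet {y : E3 | V P + y ∈ A} :=
            (continuous_const.add continuous_id).measurable hA
          have h6 : (fun y : E3 => A.indicator (fun _ => (1 : ENNReal)) (V P + y)) =
              {y : E3 | V P + y ∈ A}.indicator (fun _ => 1) := by
            funext y
            by_cases h : V P + y ∈ A
            · rw [Set.indicator_of_mem h, Set.indicator_of_mem (by exact h)]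
            · rw [Set.indicator_of_notMem h, Set.indicator_of_notMem (by exact h)]
          rw [h6, lintegral_indicator hm, lintegral_one, Measure.restrict_apply_univ]
          exact (measure_preimage_add volume (V P) A).le
      _ = _ := by rw [setLIntegral_const, mul_comm]
  have h2 := key (toMeasurable volume A0) (measurableSet_toMeasurable _ _)
  rw [measure_toMeasurable] at h2
  have h3 : volume {P : Fin n → E3 | ‖P‖ ≤ R ∧ V P ∈ A0} ≤
      volume {P : Fin n → E3 | ‖P‖ ≤ R ∧ V P ∈ toMeasurable volume A0} :=
    measure_mono (fun P hP => ⟨hP.1, subset_toMeasurable _ _ hP.2⟩)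
  refine h3.trans ?_
  rw [ENNReal.div_eq_inv_mul, mul_assoc]
  exact (ENNReal.mul_le_iff_le_inv hB0 hBt).1 h2

end Pool.Agent.Y407.NW
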